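import Pool.Agent.Helper42.VR.Pow.Defs

/-!
# Amalgamation of two coverings over a common coordinate
-/

set_option autoImplicit false

namespace Pool.Agent.Helper42.VR

open Finset

/-- The weights of two families of signs with the same mean agree on each sign. -/
theorem amalg_mass {J J' : Type} [Fintype J] [Fintype J'] {w : J → ℝ} {w' : J' → ℝ} {s : J → ℝ}
    {s' : J' → ℝ} (h1 : ∑ j, w j = 1) (h1' : ∑ j, w' j = 1) (hs : ∀ j, s j = 1 ∨ s j = -1)
    (hs' : ∀ j, s' j = 1 ∨ s' j = -1) (he : ∑ j, w j * s j = ∑ j, w' j * s' j) {c : ℝ}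
    (hc : c = 1 ∨ c = -1) :
    ∑ j, (if s j = c then w j else 0) = ∑ j, (if s' j = c then w' j else 0) := by
  have key : ∀ (K : Type) [Fintype K] (u : K → ℝ) (t : K → ℝ), (∀ j, t j = 1 ∨ t j = -1) →
      ∑ j, (if t j = c then u j else 0) = (∑ j, u j + c * ∑ j, u j * t j) / 2 := by
    intro K _ u t ht
    rw [mul_sum, ← sum_add_distrib, sum_div]
    refine sum_congr rfl fun j _ => ?_
    rcases ht j with h | h <;> rcases hc with h' | h' <;> rw [h, h'] <;> norm_num
  rw [key J w s hs, key J' w' s' hs', h1, h1', he]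

/-- **Amalgamation** over a common coordinate with the same mean. -/
theorem GCov.amalg {ι κ : Type} [Fintype ι] [DecidableEq ι] [Fintype κ] {k : ι → ℝ}
    {k' : Option κ → ℝ} {D D' : ℝ} {y : ι → ℝ} {g : κ → ℝ} (l : ι) (h : GCov ι k D y)
    (h' : GCov (Option κ) k' D' (fun o => o.elim (y l) g)) :
    GCov (ι ⊕ κ) (Sum.elim (fun i => k i + if i = l then k' none else 0) (fun i => k' (some i)))
      (D + D') (Sum.elim y g) := by
  classical
  obtain ⟨J, hJ, w, v, h1, h2, h3, h4, h5⟩ := h
  obtain ⟨J', hJ', w', v', h1', h2', h3', h4', h5'⟩ := h'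
  set p : ℝ → ℝ := fun c => ∑ j, (if v j l = c then w j else 0) with hp
  have hpq : ∀ c : ℝ, c = 1 ∨ c = -1 → p c = ∑ j, (if v' j none = c then w' j else 0) := by
    intro c hc
    refine amalg_mass h2 h2' (fun j => h3 j l) (fun j => h3' j none) ?_ hc
    rw [h4 l, h4' none]
    rfl
  have hp0 : ∀ j, p (v j l) = 0 → w j = 0 := by
    intro j hj
    have h6 : ∀ i ∈ (univ : Finset J), 0 ≤ (if v i l = v j l then w i else 0) := by
      intro i _
      split_ifs
      · exact h1 i
      · exact le_rfl
    have h7 := (sum_eq_zero_iff_of_nonneg h6).1 hj j (mem_univ j)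
    rwa [if_pos rfl] at h7
  have hq0 : ∀ j, p (v' j none) = 0 → w' j = 0 := by
    intro j hj
    rw [hpq _ (h3' j none)] at hj
    have h6 : ∀ i ∈ (univ : Finset J'), 0 ≤ (if v' i none = v' j none then w' i else 0) := by
      intro i _
      split_ifs
      · exact h1' i
      · exact le_rfl
    have h7 := (sum_eq_zero_iff_of_nonneg h6).1 hj j (mem_univ j)
    rwa [if_pos rfl] at h7
  set W : J × J' → ℝ := fun a => if v a.1 l = v' a.2 none then w a.1 * w' a.2 / p (v a.1 l) else 0
    with hW
  have hpn : ∀ c, 0 ≤ p c := fun c => sum_nonneg fun i _ => by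
    split_ifs
    · exact h1 i
    · exact le_rfl
  -- the marginals
  have m1 : ∀ j, ∑ j', W (j, j') = w j := by
    intro j
    have h6 : ∀ j', W (j, j') = w j / p (v j l) * (if v' j' none = v j l then w' j' else 0) := by
      intro j'
      simp only [hW]
      by_cases h : v j l = v' j' none
      · rw [if_pos h, if_pos h.symm]
        ring
      · rw [if_neg h, if_neg (fun h' => h h'.symm), mul_zero]
    rw [sum_congr rfl fun j' _ => h6 j', ← mul_sum, ← hpq _ (h3 j l)]
    by_cases h : p (v j l) = 0
    · rw [hp0 j h, h]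
      ring
    · field_simp
  have m2 : ∀ j', ∑ j, W (j, j') = w' j' := by
    intro j'
    have h6 : ∀ j, W (j, j') = w' j' / p (v' j' none) * (if v j l = v' j' none then w j else 0) := by
      intro j
      simp only [hW]
      by_cases h : v j l = v' j' none
      · rw [if_pos h, if_pos h, h]
        ring
      · rw [if_neg h, if_neg h, mul_zero]
    rw [sum_congr rfl fun j _ => h6 j, ← mul_sum]
    have h7 : ∑ j, (if v j l = v' j' none then w j else 0) = p (v' j' none) := rfl
    rw [h7]
    by_cases h : p (v' j' none) = 0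
    · rw [hq0 j' h, h]
      ring
    · field_simp
  have hne : ∀ a, W a ≠ 0 → v a.1 l = v' a.2 none ∧ w a.1 ≠ 0 ∧ w' a.2 ≠ 0 := by
    intro a ha
    simp only [hW] at ha
    by_cases h : v a.1 l = v' a.2 none
    · rw [if_pos h] at ha
      refine ⟨h, fun h0 => ha ?_, fun h0 => ha ?_⟩
      · rw [h0]; ring
      · rw [h0]; ring
    · rw [if_neg h] at ha
      exact absurd rfl ha
  refine ⟨J × J', inferInstance, W, fun a => Sum.elim (v a.1) (fun i => v' a.2 (some i)),
    ?_, ?_, ?_, ?_, ?_⟩
  · intro a
    simp only [hW]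
    split_ifs
    · exact div_nonneg (mul_nonneg (h1 _) (h1' _)) (hpn _)
    · exact le_rfl
  · rw [Fintype.sum_prod_type]
    rw [sum_congr rfl fun j _ => m1 j, h2]
  · rintro a (i | i)
    · exact h3 a.1 i
    · exact h3' a.2 (some i)
  · rintro (i | i)
    · rw [Fintype.sum_prod_type]
      simp only [Sum.elim_inl]
      rw [← h4 i]
      refine sum_congr rfl fun j _ => ?_
      rw [← sum_mul, m1 j]
    · rw [Fintype.sum_prod_type_right]
      simp only [Sum.elim_inr]
      have h6 := h4' (some i)
      simp only [Option.elim_some] at h6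
      rw [← h6]
      refine sum_congr rfl fun j _ => ?_
      rw [← sum_mul, m2 j]
  · intro a b ha hb
    obtain ⟨ha1, ha2, ha3⟩ := hne a ha
    obtain ⟨hb1, hb2, hb3⟩ := hne b hb
    have h6 := h5 a.1 b.1 ha2 hb2
    have h7 := h5' a.2 b.2 ha3 hb3
    rw [Fintype.sum_option] at h7
    rw [Fintype.sum_sum_type]
    simp only [Sum.elim_inl, Sum.elim_inr]
    have h8 : ∑ i, (k i + if i = l then k' none else 0) * (v a.1 i * v b.1 i) =
        ∑ i, k i * (v a.1 i * v b.1 i) + k' none * (v a.1 l * v b.1 l) := by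
      have h9 : ∀ i, (k i + if i = l then k' none else 0) * (v a.1 i * v b.1 i) =
          k i * (v a.1 i * v b.1 i) + (if i = l then k' none * (v a.1 i * v b.1 i) else 0) := by
        intro i
        split_ifs <;> ring
      rw [sum_congr rfl fun i _ => h9 i, sum_add_distrib, sum_ite_eq' univ l]
      simp
    rw [h8, ha1, hb1]
    linarith

end Pool.Agent.Helper42.VR
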